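import Pool.Agent.H97.KN.P8
import Pool.Agent.H97.KN.E5
import Pool.Agent.H97.KN.T3
import Pool.Agent.H77.KN.Fin
import Pool.Agent.H77.KN.HullC

/-!
# MP_72793b_pr: small components of the k nearest neighbour graph are convex

For `k ≥ 0.3 log n`, with high probability every component of `G_{n,k}` other than the giant one is convex
(and has fewer than `2 (k + 1)` vertices).

Outline.  Lengths in units of `√k`.
* (H77/KN) Geometry: a foreign point in the convex hull of a component `C` forces `|C| ≥ 2 (k + 1)`; a component with at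
  least `2 (k + 1)` vertices has large deviation cost at least `3.349 > log 28.1 > 10 / 3`.
* (H97/KN) Probability: large deviations for the counts in small tiles, the giant component from good rows and columns
  of tiles, the boundary by reflection.
-/

namespace Pool.Agent.Results.MP_72793b_pr.SmallComponentsConvex

open MeasureTheory Pool.Agent.H97.KN

universe u

/-- no point of `P` has two other points of `P` at the same distance (so the `k` nearest points are well defined) -/
def NoTies (P : Finset ℂ) : Prop :=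
  ∀ x ∈ P, ∀ y ∈ P, ∀ z ∈ P, x ≠ y → y ≠ z → x ≠ z → dist x y ≠ dist x z

theorem square_volume_ne_top (a : ℝ) : volume (square a) ≠ ⊤ := by
  have h : square a ⊆ Metric.closedBall (0 : ℂ) (a + a) := by
    intro z hz
    obtain ⟨h1, h2, h3, h4⟩ := hz
    rw [Metric.mem_closedBall, dist_zero_right]
    have := Complex.norm_le_abs_re_add_abs_im z
    rw [abs_of_nonneg h1, abs_of_nonneg h3] at this
    linarith
  exact ne_of_lt (lt_of_le_of_lt (measure_mono h) Metric.isBounded_closedBall.measure_lt_top)

theorem result :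
    (∀ ε : ℝ, 0 < ε → ∃ n0 : ℝ, ∀ n : ℝ, n0 ≤ n → ∀ k : ℕ, 0.3 * Real.log n ≤ k →
      ∀ (Ω : Type u) [MeasurableSpace Ω] (μ : Measure Ω) (P : Ω → Finset ℂ),
        IsPoissonProcess μ P (square (Real.sqrt n)) →
        μ {ω | ¬ (NoTies (P ω) ∧ Concl ε k (P ω))} ≤ ENNReal.ofReal ε) ∧
    (∀ n : ℝ, ∃ (Ω : Type) (_ : MeasurableSpace Ω) (μ : Measure Ω) (P : Ω → Finset ℂ),
      IsPoissonProcess μ P (square (Real.sqrt n))) := by
  constructor
  · intro ε hε
    obtain ⟨n0, h0⟩ := main_of.{u} Pool.Agent.H77.KN.cost_main Pool.Agent.H77.KN.hull_card hε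
    refine ⟨n0, fun n hn k hk Ω _ μ P hP => ?_⟩
    have h1 := no_ties (Real.sqrt_nonneg n) hP
    have h2 := h0 n hn k hk Ω μ P hP
    refine le_trans (le_trans (measure_mono (t := {ω | ∃ x ∈ P ω, ∃ y ∈ P ω, ∃ z ∈ P ω, x ≠ y ∧ y ≠ z ∧ x ≠ z ∧
      dist x y = dist x z} ∪ {ω | ¬ Concl ε k (P ω)}) ?_) (measure_union_le _ _)) ?_
    · intro ω hω
      by_cases hC : Concl ε k (P ω)
      · left
        by_contra hT
        apply hω
        refine ⟨?_, hC⟩
        intro x hx y hy z hz hxy hyz hxz hd
        exact hT ⟨x, hx, y, hy, z, hz, hxy, hyz, hxz, hd⟩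
      · right
        exact hC
    · rw [h1, zero_add]
      exact h2
  · intro n
    refine ⟨Seqs, inferInstance, ppm (square (Real.sqrt n)), ppP (square (Real.sqrt n)), ?_⟩
    exact exists_poisson (measurableSet_square _) (square_volume_ne_top _)

end Pool.Agent.Results.MP_72793b_pr.SmallComponentsConvex
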